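import Pool.Agent.Lib.MP_458f0b_nt.FF.Comb

open Polynomial Finset Filter Topology

namespace Pool.Agent.Results.MP_458f0b_nt.FunctionField

open Pool.Agent.Lib.MP_458f0b_nt.FF in
theorem result (F : Type) [Field F] [Fintype F] (s : ℕ) (hs : Odd s)
    (hq : Fintype.card F = 2 ^ s) (ε : ℝ) (hε : 0 < ε) (N₀ : ℕ) :
    ∃ D A : Polynomial F, D.Monic ∧ N₀ ≤ D.natDegree ∧ IsCoprime A D ∧
      ∀ P : Polynomial F, Irreducible P → D ∣ P - A →
        (1 - ε) * (((Fintype.card F : ℝ) - 1) ^ 2 / 16) * (Fintype.card F : ℝ) ^ D.natDegree *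
          (D.natDegree : ℝ) ^ 2 ≤ (Fintype.card F : ℝ) ^ P.natDegree := by
  have : Fact (Nat.Prime 2) := ⟨Nat.prime_two⟩
  have : CharP F 2 := charP_of_card_eq_prime_pow hq
  have hq' : Nat.card F = 2 ^ s := by rw [Nat.card_eq_fintype_card, hq]
  set q : ℝ := (Fintype.card F : ℝ) with hqdef
  have hq2 : (2 : ℝ) ≤ q := by
    rw [hqdef]
    exact_mod_cast Fintype.one_lt_card
  -- a large `k` with `k + 1 ≤ (ε / 2) * 2 ^ k`
  obtain ⟨k, hk1, hk2, hk3⟩ : ∃ k : ℕ, 1 ≤ k ∧ N₀ ≤ k ∧ (k : ℝ) + 1 ≤ ε / 2 * 2 ^ k := by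
    have h1 := tendsto_pow_const_div_const_pow_of_one_lt 1 (one_lt_two (α := ℝ))
    have h2 := (h1.eventually (gt_mem_nhds (show (0 : ℝ) < ε / 4 by positivity))).and
      ((eventually_ge_atTop 1).and (eventually_ge_atTop N₀))
    obtain ⟨k, hk, hk1, hk2⟩ := h2.exists
    refine ⟨k, hk1, hk2, ?_⟩
    rw [pow_one, div_lt_iff₀ (by positivity)] at hk
    have : (1 : ℝ) ≤ k := by exact_mod_cast hk1
    linarith
  obtain ⟨r, hr1, hr2, hr3⟩ : ∃ r : ℕ, k ≤ r ∧ r ≤ k + 1 ∧ Odd ((LL F k).natDegree + r) := by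
    rcases Nat.even_or_odd ((LL F k).natDegree + k) with h | h
    · exact ⟨k + 1, by omega, le_rfl, by rw [← add_assoc]; exact h.add_one⟩
    · exact ⟨k, le_rfl, by omega, h⟩
  have hL := monic_LL (F := F) k
  have hm : (LL F k * X ^ r).Monic := hL.mul (monic_X_pow r)
  have hmn : (LL F k * X ^ r).natDegree = (LL F k).natDegree + r := by
    rw [hL.natDegree_mul (monic_X_pow r), natDegree_X_pow]
  have hlt : (1 : F[X]).natDegree < (LL F k * X ^ r).natDegree := by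
    rw [hmn, natDegree_one]; omega
  have hE : (LL F k * X ^ r + 1).Monic := hm.add_of_left (degree_lt_degree hlt)
  have hEn : (LL F k * X ^ r + 1).natDegree = (LL F k).natDegree + r := by
    rw [natDegree_add_eq_left_of_natDegree_lt hlt, hmn]
  refine ⟨(LL F k * X ^ r + 1) ^ 4, LL F k ^ 4, hE.pow 4, ?_, ?_, fun P hP hd => ?_⟩
  · rw [hE.natDegree_pow, hEn]; omega
  · refine IsCoprime.pow ⟨-X ^ r, 1, by ring⟩
  have hdeg : 4 * ((LL F k).natDegree + r) + (2 * k + 2) ≤ P.natDegree := by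
    by_contra h
    exact no_irreducible s hq' hs k hk1 _ hE (by rw [hEn]; exact hr3) (by rw [hEn]; omega) P hd
      (by rw [hEn]; omega) hP
  rw [hE.natDegree_pow, hEn]
  refine le_trans ?_ (pow_le_pow_right₀ (by linarith) hdeg)
  rw [pow_add q (4 * ((LL F k).natDegree + r))]
  have hb : (q - 1) * ((LL F k).natDegree : ℝ) = q ^ (k + 1) - q := by
    rw [natDegree_LL, ← geom, Nat.card_eq_fintype_card]
    push_cast
    rfl
  have hpow : (2 : ℝ) ^ k ≤ q ^ k := pow_le_pow_left₀ (by norm_num) hq2 k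
  have hr : (r : ℝ) ≤ ε / 2 * q ^ k := by
    have h1 : (r : ℝ) ≤ k + 1 := by exact_mod_cast hr2
    have h2 : ε / 2 * 2 ^ k ≤ ε / 2 * q ^ k := mul_le_mul_of_nonneg_left hpow (by positivity)
    linarith
  set e : ℝ := ((LL F k).natDegree : ℝ) + r with he
  have he0 : 0 ≤ e := by positivity
  have h1 : (q - 1) * e ≤ (1 + ε / 2) * q ^ (k + 1) := by
    have h2 : (q - 1) * r ≤ q * (ε / 2 * q ^ k) :=
      mul_le_mul (by linarith) hr (by positivity) (by linarith)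
    rw [he, mul_add, hb, pow_succ]
    nlinarith
  have h3 : ((q - 1) * e) ^ 2 ≤ ((1 + ε / 2) * q ^ (k + 1)) ^ 2 :=
    pow_le_pow_left₀ (mul_nonneg (by linarith) he0) h1 2
  have h4 : (1 - ε) * ((q - 1) * e) ^ 2 ≤ q ^ (2 * k + 2) := by
    have h5 : q ^ (2 * k + 2) = (q ^ (k + 1)) ^ 2 := by ring
    rcases le_total ε 1 with h | h
    · have h6 : (1 - ε) * (1 + ε / 2) ^ 2 ≤ 1 := by nlinarith [mul_pos hε hε]
      calc (1 - ε) * ((q - 1) * e) ^ 2 ≤ (1 - ε) * ((1 + ε / 2) * q ^ (k + 1)) ^ 2 :=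
            mul_le_mul_of_nonneg_left h3 (by linarith)
        _ = ((1 - ε) * (1 + ε / 2) ^ 2) * (q ^ (k + 1)) ^ 2 := by ring
        _ ≤ 1 * (q ^ (k + 1)) ^ 2 := mul_le_mul_of_nonneg_right h6 (by positivity)
        _ = _ := by rw [h5, one_mul]
    · exact (mul_nonpos_of_nonpos_of_nonneg (by linarith) (by positivity)).trans (by positivity)
  have h7 : ((4 * ((LL F k).natDegree + r) : ℕ) : ℝ) = 4 * e := by rw [he]; push_cast; ring
  rw [h7]
  calc (1 - ε) * ((q - 1) ^ 2 / 16) * q ^ (4 * ((LL F k).natDegree + r)) * (4 * e) ^ 2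
      = q ^ (4 * ((LL F k).natDegree + r)) * ((1 - ε) * ((q - 1) * e) ^ 2) := by ring
    _ ≤ _ := mul_le_mul_of_nonneg_left h4 (by positivity)

end Pool.Agent.Results.MP_458f0b_nt.FunctionField
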