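import Pool.Agent.Lib.MP_458f0b_nt.LxMain
import Pool.Agent.Lib.MP_458f0b_nt.LxCor

/-!
The prime number theorem in every progression to every modulus of degree at most `n / (2 - δ)`
in `k[T]`, and a Linnik exponent below two, for every finite field `k` of characteristic two.
-/

open Polynomial

theorem Pool.Agent.Results.MP_458f0b_nt.LinnikBelowTwo.result :
    ∃ δ : ℝ, 0 < δ ∧ ∀ (k : Type) [Field k] [Fintype k] [CharP k 2], ∃ C : ℝ,
      (∀ (D a : k[X]) (n : ℕ), D.Monic → IsCoprime a D → (2 - δ) * D.natDegree ≤ n →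
        |(n : ℝ) *
            (Set.ncard {P : k[X] | P.Monic ∧ Irreducible P ∧ P.natDegree = n ∧ D ∣ P - a} : ℝ) -
          (Fintype.card k : ℝ) ^ n /
            (Set.ncard {r : k[X] | r.degree < D.degree ∧ IsCoprime r D} : ℝ)| ≤
          C * (Fintype.card k : ℝ) ^ ((1 - δ) * n - D.natDegree)) ∧
      ∀ D a : k[X], D.Monic → IsCoprime a D →
        ∃ P : k[X], P.Monic ∧ Irreducible P ∧ D ∣ P - a ∧
          (Fintype.card k : ℝ) ^ P.natDegree ≤
            C * (Fintype.card k : ℝ) ^ ((2 - δ) * D.natDegree) :=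
  Pool.Agent.Lib.MP_458f0b_nt.LxCor.linnik_of Pool.Agent.Lib.MP_9227d9_nt.Mob.lxMain
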