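import Pool.Agent.Lib.MP_458f0b_nt.Grow.Main

open Finset Filter Topology

namespace Pool.Agent.Results.MP_458f0b_nt.PoissonGrowing

theorem result : ∃ c : ℝ, 0 < c ∧ ∃ D₀ : ℕ, ∀ D : ℕ, D₀ ≤ D → ∃ E : Finset ℕ,
    (E.card : ℝ) ≤ D / Real.log D ^ c ∧ ∀ d ∈ Finset.Icc 1 D, d ∉ E → ∀ lam : ℝ, 0 < lam →
      lam ≤ c * Real.log (Real.log D) / Real.log (Real.log (Real.log D)) → ∀ K : ℕ,
        ∑ k ∈ Finset.range K,
          |(((Finset.range d).filter (fun a => Nat.Coprime a d ∧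
              ((Finset.range (⌊lam * (Nat.totient d : ℝ) * Real.log d⌋₊ + 1)).filter
                (fun p => p.Prime ∧ p % d = a)).card = k)).card : ℝ) / (Nat.totient d : ℝ) -
            Real.exp (-lam) * lam ^ k / (k.factorial : ℝ)| ≤
          Real.exp (-10 * (c * Real.log (Real.log D) / Real.log (Real.log (Real.log D)))) :=
  Pool.Agent.Lib.MP_458f0b_nt.Grow.grow_law

end Pool.Agent.Results.MP_458f0b_nt.PoissonGrowing
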