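import Pool.Agent.Lib.MP_458f0b_nt.H37Tail

namespace Pool.Agent.Results.MP_458f0b_nt.PrimeFreeClasses

/-- For every sufficiently large modulus `d` and every `lam` between `1` and `c log log d`, at
least `φ(d) exp (- exp (C lam))` reduced residue classes modulo `d` have their least prime above
`lam φ(d) log d`. -/
theorem result :
    ∃ c C : ℝ, 0 < c ∧ 0 < C ∧ ∀ᶠ d : ℕ in Filter.atTop, ∀ lam : ℝ, 1 ≤ lam →
      lam ≤ c * Real.log (Real.log d) →
      (Nat.totient d : ℝ) * Real.exp (-Real.exp (C * lam)) ≤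
        (((Finset.range d).filter (fun a => Nat.Coprime a d ∧
          lam * ((Nat.totient d : ℝ) * Real.log d) <
            ((sInf {p : ℕ | p.Prime ∧ p % d = a} : ℕ) : ℝ))).card : ℝ) :=
  ⟨1 / (4 * Pool.Agent.Lib.MP_458f0b_nt.CT), 16 * Pool.Agent.Lib.MP_458f0b_nt.CT,
    by have := Pool.Agent.Lib.MP_458f0b_nt.CT_ge; positivity,
    by have := Pool.Agent.Lib.MP_458f0b_nt.CT_ge; positivity,
    Pool.Agent.Lib.MP_458f0b_nt.tail⟩

end Pool.Agent.Results.MP_458f0b_nt.PrimeFreeClasses
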